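import Pool.Agent.Lib.MP_c5d73d_lc.F.IfaceW

/-!
# Separation, replacement, infinity and choice in `V^B`

Modules ZSEP, ZREP, ZB3, ZB4 of project MAC (helper64).
-/

universe u v w

open scoped symmDiff

namespace Pool.Agent.Lib.MP_c5d73d_lc.F.H64

open Pool.Agent.Lib.MP_100a6c_lc Pool.Agent.Lib.MP_c5d73d_lc.F
open BName
open H36 (nn om)

variable {B : Type u} [CompleteBooleanAlgebra B]

/-- `val φ` respects equality of assignments. -/
theorem val_congr {n : ℕ} (φ : Fml n) (v w : Fin n → BName B) :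
    (⨅ i, beq (v i) (w i)) ⊓ val (VB B) φ v ≤ val (VB B) φ w := by
  induction φ with
  | @mem n j k =>
    change _ ⊓ bmem _ _ ≤ bmem _ _
    refine (ext_mem_left _).of_le (inf_le_left.trans (iInf_le _ j)) ?_
    exact (ext_mem_right _).of_le (inf_le_left.trans (iInf_le _ k)) inf_le_right
  | @eq n j k =>
    change _ ⊓ beq _ _ ≤ beq _ _
    refine (ext_eq_left _).of_le (inf_le_left.trans (iInf_le _ j)) ?_
    exact (ext_eq_right _).of_le (inf_le_left.trans (iInf_le _ k)) inf_le_right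
  | fls => exact inf_le_right
  | imp φ ψ ih1 ih2 =>
    change _ ⊓ (_ ⇨ _) ≤ (_ ⇨ _)
    rw [le_himp_iff]
    have h1 : (⨅ i, beq (v i) (w i)) ⊓ (val (VB B) φ v ⇨ val (VB B) ψ v) ⊓ val (VB B) φ w ≤
        val (VB B) φ v := by
      refine le_trans (le_inf ?_ inf_le_right) (ih1 w v)
      refine (inf_le_left.trans inf_le_left).trans (iInf_mono fun i => ?_)
      rw [beq_symm]
    refine le_trans (le_inf (inf_le_left.trans inf_le_left) ?_) (ih2 v w)
    exact le_trans (le_inf (inf_le_left.trans inf_le_right) h1) himp_inf_le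
  | @all n φ ih =>
    change _ ⊓ (⨅ x, _) ≤ ⨅ x, _
    refine le_iInf fun x => ?_
    refine le_trans (le_inf ?_ (inf_le_right.trans (iInf_le _ x))) (ih (Fin.cons x v) (Fin.cons x w))
    refine inf_le_left.trans (le_iInf fun i => ?_)
    refine Fin.cases ?_ (fun j => ?_) i
    · simp [beq_refl]
    · simpa using iInf_le (fun i => beq (v i) (w i)) j

/-- `val φ` respects equality in variable `0`. -/
theorem ext_val_cons {n : ℕ} (φ : Fml (n + 1)) (v : Fin n → BName B) :
    Ext (fun x : BName B => val (VB B) φ (Fin.cons x v)) := by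
  intro x y
  refine le_trans (inf_le_inf_right _ ?_) (val_congr φ _ _)
  refine le_iInf fun i => Fin.cases ?_ (fun j => ?_) i
  · simp
  · simp [beq_refl]

/-- `val φ` respects equality in variable `1`. -/
theorem ext_val_cons' {n : ℕ} (φ : Fml (n + 2)) (z : BName B) (v : Fin n → BName B) :
    Ext (fun x : BName B => val (VB B) φ (Fin.cons z (Fin.cons x v))) := by
  intro x y
  refine le_trans (inf_le_inf_right _ ?_) (val_congr φ _ _)
  refine le_iInf fun i => Fin.cases ?_ (fun j => ?_) i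
  · simp [beq_refl]
  · refine Fin.cases ?_ (fun k => ?_) j
    · simp
    · simp [beq_refl]

theorem zsep : ZsepStatement.{u} := by
  intro B _
  unfold separation
  refine eq_top_iff.2 (le_iInf fun n => le_iInf fun φ => le_iInf fun v => le_iInf fun x => ?_)
  refine le_iSup_of_le (sepn x fun z => val (VB B) φ (Fin.cons z v)) (le_iInf fun z => ?_)
  rw [VB_mem, VB_mem, mem_sepn (ext_val_cons φ v), bihimp_self]

theorem zrep : ZrepStatement.{u} := by
  intro B _
  unfold replacement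
  refine eq_top_iff.2 (le_iInf fun n => le_iInf fun φ => le_iInf fun v => le_iInf fun x => ?_)
  rw [le_himp_iff, top_inf_eq]
  set Γ : B := ⨅ s, (VB B).mem s x ⇨ ⨆ t, ⨅ z, val (VB B) φ (Fin.cons z (Fin.cons s v)) ⇔
    (VB B).eq z t with hΓ
  have hext : ∀ s : BName B, Ext fun t : BName B =>
      ⨅ z, val (VB B) φ (Fin.cons z (Fin.cons s v)) ⇔ beq z t := fun s =>
    Ext.iInf fun z => (Ext.const _).bihimp (ext_eq_right z)
  have hw : ∀ i : x.ix, ∃ t : BName B, Γ ⊓ x.vl i ≤
      ⨅ z, val (VB B) φ (Fin.cons z (Fin.cons (x.nm i) v)) ⇔ beq z t := by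
    intro i
    refine exists_wit (hext (x.nm i)) ?_
    exact iInf_himp_apply (φ := fun s => (VB B).mem s x) (ψ := fun s => ⨆ t, ⨅ z,
      val (VB B) φ (Fin.cons z (Fin.cons s v)) ⇔ (VB B).eq z t) (Γ := Γ) le_rfl (x.nm i)
      inf_le_left (inf_le_right.trans (vl_le_bmem x i))
  choose t ht using hw
  refine le_iSup_of_le (mk x.ix t x.vl) (le_iInf fun z => ?_)
  have e1 : (⨆ s, (VB B).mem s x ⊓ val (VB B) φ (Fin.cons z (Fin.cons s v)))
      = ⨆ i, x.vl i ⊓ val (VB B) φ (Fin.cons z (Fin.cons (x.nm i) v)) :=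
    iSup_mem (ext_val_cons' φ z v) x
  rw [e1, VB_mem, mem_mk, le_bihimp_iff', inf_iSup_eq, inf_iSup_eq]
  refine iSup_congr fun i => ?_
  have h1 := le_bihimp_iff'.1 ((ht i).trans (iInf_le _ z))
  rw [← inf_assoc, ← inf_assoc, h1]

theorem zb3 : Zb3Statement.{u} := by
  intro B _
  refine eq_top_iff.2 (le_iSup_of_le (check om) (le_inf ?_ ?_))
  · refine le_iSup_of_le (check (nn 0)) (le_inf ?_ ?_)
    · rw [VB_mem, mem_check_of_mem (H36.nn_mem_om 0)]
    · unfold isEmpty
      refine le_iInf fun z => ?_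
      rw [VB_mem, H36.mem_check_nn]
      simp
  · refine le_iInf fun y => ?_
    rw [le_himp_iff, top_inf_eq, VB_mem, H36.mem_check_om]
    refine iSup_le fun k => ?_
    refine le_iSup_of_le (check (nn (k + 1))) (le_inf ?_ ?_)
    · rw [VB_mem, mem_check_of_mem (H36.nn_mem_om (k + 1))]
      exact le_top
    · unfold isSuc
      refine le_iInf fun z => ?_
      rw [le_bihimp_iff', VB_mem, VB_mem, VB_eq, H36.mem_check_nn]
      have e1 : (⨆ j : Fin (k + 1), beq z (check (nn j)))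
          = bmem z (check (nn k)) ⊔ beq z (check (nn k)) := by
        rw [H36.mem_check_nn]
        refine le_antisymm (iSup_le fun j => ?_) (sup_le (iSup_le fun j => ?_) ?_)
        · rcases Nat.lt_or_ge j.1 k with h | h
          · exact le_sup_of_le_left (le_iSup_of_le (⟨j.1, h⟩ : Fin k) le_rfl)
          · have : j.1 = k := by omega
            rw [this]
            exact le_sup_right
        · exact le_iSup_of_le (⟨j.1, by omega⟩ : Fin (k + 1)) le_rfl
        · exact le_iSup_of_le (⟨k, by omega⟩ : Fin (k + 1)) le_rfl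
      rw [e1]
      have hE : Ext fun y : BName B => bmem z y ⊔ beq z y :=
        (ext_mem_right z).sup (ext_eq_right z)
      refine le_antisymm (le_inf inf_le_left ?_) (le_inf inf_le_left ?_)
      · exact hE.of_le' inf_le_left inf_le_right
      · exact hE.of_le inf_le_left inf_le_right

theorem zb4 : Zb4Statement.{u} := by
  classical
  intro B _
  refine eq_top_iff.2 (le_iInf fun x => ?_)
  rw [le_himp_iff, top_inf_eq]
  set Γ : B := (⨅ y, (VB B).mem y x ⇨ ⨆ z, (VB B).mem z y) ⊓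
      (⨅ y, ⨅ y', ⨅ z, (VB B).mem y x ⊓ (VB B).mem y' x ⊓ (VB B).mem z y ⊓ (VB B).mem z y' ⇨
        (VB B).eq y y') with hΓ
  have hΓ1 : Γ ≤ ⨅ y, (VB B).mem y x ⇨ ⨆ z, (VB B).mem z y := inf_le_left
  have hΓ2 : ∀ (y y' z : BName B) {Δ : B}, Δ ≤ Γ → Δ ≤ bmem y x → Δ ≤ bmem y' x →
      Δ ≤ bmem z y → Δ ≤ bmem z y' → Δ ≤ beq y y' := by
    intro y y' z Δ h0 h1 h2 h3 h4
    have h5 : Γ ≤ (VB B).mem y x ⊓ (VB B).mem y' x ⊓ (VB B).mem z y ⊓ (VB B).mem z y' ⇨
        (VB B).eq y y' :=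
      inf_le_right.trans ((iInf_le _ y).trans ((iInf_le _ y').trans (iInf_le _ z)))
    exact le_trans (le_inf (h0.trans h5) (le_inf (le_inf (le_inf h1 h2) h3) h4)) himp_inf_le
  have hw : ∀ i : x.ix, ∃ z : BName B, Γ ⊓ x.vl i ≤ bmem z (x.nm i) := by
    intro i
    refine exists_wit (ext_mem_left (x.nm i)) ?_
    exact iInf_himp_apply (φ := fun y => (VB B).mem y x) (ψ := fun y => ⨆ z, (VB B).mem z y)
      hΓ1 (x.nm i) inf_le_left (inf_le_right.trans (vl_le_bmem x i))
  choose z hz using hw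
  let r : x.ix → x.ix → Prop := WellOrderingRel
  -- `fst i`: the index `i` is the first one naming its element
  let fst : x.ix → B := fun i => (⨆ j : {j // r j i}, x.vl j.1 ⊓ beq (x.nm j.1) (x.nm i))ᶜ
  have hfst : ∀ i j, r j i → fst i ⊓ (x.vl j ⊓ beq (x.nm j) (x.nm i)) ≤ ⊥ := by
    intro i j hji
    refine le_trans (inf_le_inf_left _ (le_iSup (fun j : {j // r j i} =>
      x.vl j.1 ⊓ beq (x.nm j.1) (x.nm i)) ⟨j, hji⟩)) ?_
    rw [compl_inf_self]
  let c : BName B := mk x.ix z fun i => x.vl i ⊓ fst i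
  refine le_iSup_of_le c ?_
  have hE : Ext fun y : BName B => ⨆ z, ⨅ t, (bmem t c ⊓ bmem t y) ⇔ beq t z :=
    Ext.iSup fun z => Ext.iInf fun t => ((Ext.const _).inf (ext_mem_right t)).bihimp (Ext.const _)
  refine (le_iInf_mem hE).2 fun k => ?_
  -- existence of the first index
  have hD : x.vl k ≤ ⨆ i, x.vl i ⊓ beq (x.nm i) (x.nm k) ⊓ fst i := by
    have key : ∀ i, x.vl i ⊓ beq (x.nm i) (x.nm k) ≤
        ⨆ i, x.vl i ⊓ beq (x.nm i) (x.nm k) ⊓ fst i := by
      intro i
      induction i using (IsWellFounded.wf (r := (WellOrderingRel : x.ix → x.ix → Prop))).induction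
        with
      | _ i ih =>
        have h1 : x.vl i ⊓ beq (x.nm i) (x.nm k) ≤
            (x.vl i ⊓ beq (x.nm i) (x.nm k) ⊓ fst i) ⊔
            (x.vl i ⊓ beq (x.nm i) (x.nm k) ⊓
              ⨆ j : {j // r j i}, x.vl j.1 ⊓ beq (x.nm j.1) (x.nm i)) := by
          rw [← inf_sup_left, compl_sup_eq_top, inf_top_eq]
        refine h1.trans (sup_le (le_iSup (fun i => x.vl i ⊓ beq (x.nm i) (x.nm k) ⊓ fst i) i) ?_)
        rw [inf_iSup_eq]
        refine iSup_le fun j => le_trans ?_ (ih j.1 j.2)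
        refine le_inf (inf_le_right.trans inf_le_left) ?_
        exact le_trans (le_inf (inf_le_right.trans inf_le_right) (inf_le_left.trans inf_le_right))
          (beq_trans _ _ _)
    refine le_trans ?_ (key k)
    rw [beq_refl, inf_top_eq]
  have hD' : Γ ⊓ x.vl k ≤ ⨆ i, Γ ⊓ x.vl k ⊓ (x.vl i ⊓ beq (x.nm i) (x.nm k) ⊓ fst i) := by
    rw [← inf_iSup_eq]
    exact le_inf le_rfl (inf_le_right.trans hD)
  refine hD'.trans (iSup_le fun i => le_iSup_of_le (z i) (le_iInf fun t => ?_))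
  set Δ : B := Γ ⊓ x.vl k ⊓ (x.vl i ⊓ beq (x.nm i) (x.nm k) ⊓ fst i) with hΔ
  have d1 : Δ ≤ Γ := inf_le_left.trans inf_le_left
  have d3 : Δ ≤ x.vl i := inf_le_right.trans (inf_le_left.trans inf_le_left)
  have d4 : Δ ≤ beq (x.nm i) (x.nm k) := inf_le_right.trans (inf_le_left.trans inf_le_right)
  have d5 : Δ ≤ fst i := inf_le_right.trans inf_le_right
  rw [le_bihimp_iff']
  refine le_antisymm (le_inf inf_le_left ?_) (le_inf inf_le_left (le_inf ?_ ?_))
  · -- uniqueness
    have h1 : bmem t c = ⨆ j, (x.vl j ⊓ fst j) ⊓ beq t (z j) := mem_mk _ _ _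
    rw [h1, iSup_inf_eq, inf_iSup_eq]
    refine iSup_le fun j => ?_
    set Θ : B := Δ ⊓ (x.vl j ⊓ fst j ⊓ beq t (z j) ⊓ bmem t (x.nm k)) with hΘ
    have e0 : Θ ≤ Δ := inf_le_left
    have e1 : Θ ≤ x.vl j := inf_le_right.trans (inf_le_left.trans (inf_le_left.trans inf_le_left))
    have e2 : Θ ≤ fst j := inf_le_right.trans (inf_le_left.trans (inf_le_left.trans inf_le_right))
    have e3 : Θ ≤ beq t (z j) := inf_le_right.trans (inf_le_left.trans inf_le_right)
    have e4 : Θ ≤ bmem t (x.nm k) := inf_le_right.trans inf_le_right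
    have e5 : Θ ≤ bmem t (x.nm i) := (ext_mem_right t).of_le' (e0.trans d4) e4
    have e6 : Θ ≤ bmem (z j) (x.nm j) := le_trans (le_inf (e0.trans d1) e1) (hz j)
    have e7 : Θ ≤ bmem t (x.nm j) := (ext_mem_left _).of_le' e3 e6
    have e8 : Θ ≤ beq (x.nm j) (x.nm i) :=
      hΓ2 (x.nm j) (x.nm i) t (e0.trans d1) (e1.trans (vl_le_bmem x j))
        ((e0.trans d3).trans (vl_le_bmem x i)) e7 e5
    rcases trichotomous_of WellOrderingRel j i with hji | hji | hji
    · refine le_trans ?_ bot_le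
      exact le_trans (le_inf (e0.trans d5) (le_inf e1 e8)) (hfst i j hji)
    · rw [← hji]
      exact e3
    · refine le_trans ?_ bot_le
      refine le_trans (le_inf e2 (le_inf (e0.trans d3) ?_)) (hfst j i hji)
      rw [beq_symm]
      exact e8
  · -- `z i ∈ c`
    refine (ext_mem_left c).of_le' (x := z i) inf_le_right ?_
    refine le_trans (le_inf (inf_le_left.trans d3) (inf_le_left.trans d5)) ?_
    exact vl_le_bmem c i
  · refine (ext_mem_left _).of_le' (x := z i) inf_le_right ?_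
    refine (ext_mem_right _).of_le (inf_le_left.trans d4) ?_
    exact le_trans (le_inf (inf_le_left.trans d1) (inf_le_left.trans d3)) (hz i)

end Pool.Agent.Lib.MP_c5d73d_lc.F.H64
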